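import Pool.Agent.Helper96.GB.Frames

/-! Piece S_Sand: compositions with almost trivial overshears on both sides. -/

set_option autoImplicit false

open Set Filter Metric Topology

namespace Pool.Agent.Helper18.GB

open Pool.Agent.Helper96.GB

/-- The exponential is Lipschitz at zero. -/
theorem exp_sub_one_le {z : ℂ} {ε : ℝ} (hε : ε ≤ 1) (hz : ‖z‖ < ε) :
    ‖Complex.exp z - 1‖ ≤ 2 * ε := by
  have h1 : ‖z‖ ≤ 1 := hz.le.trans hε
  have h2 := Complex.norm_exp_sub_one_sub_id_le h1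
  have h3 : Complex.exp z - 1 = (Complex.exp z - 1 - z) + z := by ring
  have h0 := norm_nonneg z
  calc ‖Complex.exp z - 1‖ = ‖(Complex.exp z - 1 - z) + z‖ := by rw [← h3]
    _ ≤ ‖Complex.exp z - 1 - z‖ + ‖z‖ := norm_add_le _ _
    _ ≤ ‖z‖ ^ 2 + ‖z‖ := by linarith
    _ ≤ 2 * ε := by nlinarith

/-- One overshear with small functions is close to the identity. -/
theorem osh_close (α β : E →L[ℂ] ℂ) (e : E) (χ φ : ℂ → ℂ) {T r ε : ℝ} (hT : 0 ≤ T)
    (hr : ‖α‖ * T ≤ r) (hε1 : ε ≤ 1) {x : E} (hx : ‖x‖ ≤ T)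
    (hχ : ∀ z, ‖z‖ ≤ r → ‖χ z‖ < ε) (hφ : ∀ z, ‖z‖ ≤ r → ‖φ z‖ < 4 * ε) :
    ‖osh α β e χ φ x - x‖ ≤ (2 * ε * (‖β‖ * T) + 4 * ε) * ‖e‖ := by
  have ha : ‖α x‖ ≤ r := by
    refine (α.le_opNorm x).trans (le_trans ?_ hr)
    exact mul_le_mul_of_nonneg_left hx (norm_nonneg _)
  have hb : ‖β x‖ ≤ ‖β‖ * T :=
    (β.le_opNorm x).trans (mul_le_mul_of_nonneg_left hx (norm_nonneg _))
  have h1 := exp_sub_one_le hε1 (hχ _ ha)
  have h2 := (hφ _ ha).le
  have h3 : osh α β e χ φ x - x = ((Complex.exp (χ (α x)) - 1) * β x + φ (α x)) • e := by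
    unfold osh
    abel
  rw [h3, norm_smul]
  refine mul_le_mul_of_nonneg_right ?_ (norm_nonneg _)
  refine (norm_add_le _ _).trans ?_
  rw [norm_mul]
  have h4 : ‖Complex.exp (χ (α x)) - 1‖ * ‖β x‖ ≤ 2 * ε * (‖β‖ * T) :=
    mul_le_mul h1 hb (norm_nonneg _) ((norm_nonneg _).trans h1)
  linarith

/-- Overshears and their inverses for small functions. -/
theorem osh_small (α β : E →L[ℂ] ℂ) (e : E) {T η : ℝ} (hT : 0 ≤ T) (hη : 0 < η) :
    ∃ ε : ℝ, 0 < ε ∧ ∀ (r : ℝ) (χ φ : ℂ → ℂ), ‖α‖ * T ≤ r →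
      (∀ z, ‖z‖ ≤ r → ‖χ z‖ < ε ∧ ‖φ z‖ < ε) → ∀ x : E, ‖x‖ ≤ T →
      ‖osh α β e χ φ x - x‖ < η ∧
      ‖osh α β e (fun z => -χ z) (fun z => -(Complex.exp (-χ z) * φ z)) x - x‖ < η := by
  set K : ℝ := (2 * (‖β‖ * T) + 4) * ‖e‖ + 1 with hK
  have hK0 : 0 < K := by positivity
  refine ⟨min 1 (η / (2 * K)), lt_min one_pos (by positivity), ?_⟩
  set ε : ℝ := min 1 (η / (2 * K)) with hε
  have hε0 : 0 < ε := lt_min one_pos (by positivity)
  have hε1 : ε ≤ 1 := min_le_left _ _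
  have hε2 : ε * K < η := by
    have h1 : ε ≤ η / (2 * K) := min_le_right _ _
    have h2 : ε * K ≤ η / (2 * K) * K := mul_le_mul_of_nonneg_right h1 hK0.le
    have h3 : η / (2 * K) * K = η / 2 := by field_simp
    linarith
  have hb : (2 * ε * (‖β‖ * T) + 4 * ε) * ‖e‖ < η := by
    have h1 : (2 * ε * (‖β‖ * T) + 4 * ε) * ‖e‖ = ε * (K - 1) := by
      rw [hK]; ring
    rw [h1]
    nlinarith
  intro r χ φ hr h x hx
  constructor
  · refine lt_of_le_of_lt (osh_close α β e χ φ hT hr hε1 hx (fun z hz => (h z hz).1)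
      (fun z hz => ?_)) hb
    have := (h z hz).2
    linarith
  · refine lt_of_le_of_lt (osh_close α β e _ _ hT hr hε1 hx (fun z hz => ?_)
      (fun z hz => ?_)) hb
    · rw [norm_neg]
      exact (h z hz).1
    · rw [norm_neg, norm_mul]
      have h1 : ‖-χ z‖ < ε := by rw [norm_neg]; exact (h z hz).1
      have h2 := exp_sub_one_le hε1 h1
      have h3 : ‖Complex.exp (-χ z)‖ ≤ 3 := by
        have h4 : Complex.exp (-χ z) = (Complex.exp (-χ z) - 1) + 1 := by ring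
        rw [h4]
        refine (norm_add_le _ _).trans ?_
        rw [norm_one]
        linarith
      have h5 := (h z hz).2
      have h6 : ‖Complex.exp (-χ z)‖ * ‖φ z‖ ≤ 3 * ‖φ z‖ :=
        mul_le_mul_of_nonneg_right h3 (norm_nonneg _)
      have h7 := norm_nonneg (φ z)
      linarith

/-- Uniform continuity and boundedness of a continuous map near a ball. -/
theorem unif (g : E → E) (hg : Continuous g) {T η : ℝ} (hη : 0 < η) :
    ∃ δ M : ℝ, 0 < δ ∧ 0 ≤ M ∧ δ ≤ 1 ∧ ∀ x y : E, ‖x‖ ≤ T → ‖y - x‖ < δ →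
      ‖g y - g x‖ < η ∧ ‖g y‖ ≤ M := by
  have hc : IsCompact (closedBall (0 : E) (T + 1)) := isCompact_closedBall _ _
  have hu := hc.uniformContinuousOn_of_continuous hg.continuousOn
  rw [Metric.uniformContinuousOn_iff] at hu
  obtain ⟨δ, hδ, h⟩ := hu η hη
  obtain ⟨M, hM⟩ := hc.exists_bound_of_continuousOn hg.continuousOn
  refine ⟨min δ 1, max M 0, lt_min hδ one_pos, le_max_right _ _, min_le_right _ _, ?_⟩
  intro x y hx hxy
  have h1 : ‖y - x‖ < δ := lt_of_lt_of_le hxy (min_le_left _ _)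
  have h2 : ‖y - x‖ < 1 := lt_of_lt_of_le hxy (min_le_right _ _)
  have hx' : x ∈ closedBall (0 : E) (T + 1) := by
    rw [mem_closedBall_zero_iff]; linarith
  have hy' : y ∈ closedBall (0 : E) (T + 1) := by
    rw [mem_closedBall_zero_iff]
    have h3 : y = (y - x) + x := by abel
    rw [h3]
    refine (norm_add_le _ _).trans ?_
    linarith
  constructor
  · have h3 := h y hy' x hx' (by rw [dist_eq_norm]; exact h1)
    rwa [dist_eq_norm] at h3
  · exact (hM y hy').trans (le_max_left _ _)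

theorem s_Sand (hN : S_Nbhd) (hO : S_Osh) : S_Sand := by
  intro A V hV hA α β α' β' e e' h1 h2 h3 h4
  obtain ⟨R₀, ε₀, hR₀, hε₀, hB⟩ := hN A V hV hA
  have hη : 0 < ε₀ / 2 := by positivity
  obtain ⟨δ, M, hδ, hM, -, hu⟩ := unif A.F A.diff.continuous (T := R₀) hη
  obtain ⟨δ', M', hδ', hM', -, hu'⟩ := unif A.F.symm A.diff_symm.continuous (T := R₀) hη
  refine ⟨(‖α‖ + ‖α'‖ + 1) * (R₀ + M + M'), by positivity, ?_⟩
  intro r₁ r₂ hr₁ hr₂
  have hT : 0 ≤ R₀ + M + M' := by positivity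
  have hα : ‖α‖ * (R₀ + M + M') ≤ r₁ := by
    refine le_trans (mul_le_mul_of_nonneg_right ?_ hT) hr₁
    have := norm_nonneg α'
    linarith
  have hα' : ‖α'‖ * (R₀ + M + M') ≤ r₂ := by
    refine le_trans (mul_le_mul_of_nonneg_right ?_ hT) hr₂
    have := norm_nonneg α
    linarith
  have hη1 : 0 < min (ε₀ / 2) (min δ δ') := lt_min hη (lt_min hδ hδ')
  obtain ⟨ε₁, hε₁, H₁⟩ := osh_small α β e hT hη1
  obtain ⟨ε₂, hε₂, H₂⟩ := osh_small α' β' e' hT hη1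
  refine ⟨min ε₁ ε₂, lt_min hε₁ hε₂, ?_⟩
  intro χ φ χ' φ' dχ dφ dχ' dφ' hs hs'
  obtain ⟨S, hS, hS'⟩ := hO α β e χ φ h1 h2 dχ dφ
  obtain ⟨S', hT1, hT2⟩ := hO α' β' e' χ' φ' h3 h4 dχ' dφ'
  have HS := H₁ r₁ χ φ hα (fun z hz =>
    ⟨lt_of_lt_of_le (hs z hz).1 (min_le_left _ _), lt_of_lt_of_le (hs z hz).2 (min_le_left _ _)⟩)
  have HS' := H₂ r₂ χ' φ' hα' (fun z hz =>
    ⟨lt_of_lt_of_le (hs' z hz).1 (min_le_right _ _),
      lt_of_lt_of_le (hs' z hz).2 (min_le_right _ _)⟩)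
  have m1 : min (ε₀ / 2) (min δ δ') ≤ ε₀ / 2 := min_le_left _ _
  have m2 : min (ε₀ / 2) (min δ δ') ≤ δ := (min_le_right _ _).trans (min_le_left _ _)
  have m3 : min (ε₀ / 2) (min δ δ') ≤ δ' := (min_le_right _ _).trans (min_le_right _ _)
  refine ⟨⟨(S.F.trans A.F).trans S'.F, ?_, ?_⟩, hB _ ?_, ?_⟩
  · exact S'.diff.comp (A.diff.comp S.diff)
  · exact S.diff_symm.comp (A.diff_symm.comp S'.diff_symm)
  · intro x hx
    have hx1 : ‖x‖ ≤ R₀ + M + M' := by linarith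
    constructor
    · change ‖S'.F (A.F (S.F x)) - A.F x‖ < ε₀
      have k1 : ‖S.F x - x‖ < δ := by
        rw [hS]
        exact lt_of_lt_of_le (HS x hx1).1 m2
      obtain ⟨k2, k3⟩ := hu x (S.F x) hx k1
      have k4 : ‖A.F (S.F x)‖ ≤ R₀ + M + M' := by linarith
      have k5 : ‖S'.F (A.F (S.F x)) - A.F (S.F x)‖ < ε₀ / 2 := by
        rw [hT1]
        exact lt_of_lt_of_le (HS' _ k4).1 m1
      have k6 : S'.F (A.F (S.F x)) - A.F x =
          (S'.F (A.F (S.F x)) - A.F (S.F x)) + (A.F (S.F x) - A.F x) := by abel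
      rw [k6]
      refine lt_of_le_of_lt (norm_add_le _ _) ?_
      linarith
    · change ‖S.F.symm (A.F.symm (S'.F.symm x)) - A.F.symm x‖ < ε₀
      have k1 : ‖S'.F.symm x - x‖ < δ' := by
        rw [hT2]
        exact lt_of_lt_of_le (HS' x hx1).2 m3
      obtain ⟨k2, k3⟩ := hu' x (S'.F.symm x) hx k1
      have k4 : ‖A.F.symm (S'.F.symm x)‖ ≤ R₀ + M + M' := by linarith
      have k5 : ‖S.F.symm (A.F.symm (S'.F.symm x)) - A.F.symm (S'.F.symm x)‖ < ε₀ / 2 := by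
        rw [hS']
        exact lt_of_lt_of_le (HS _ k4).2 m1
      have k6 : S.F.symm (A.F.symm (S'.F.symm x)) - A.F.symm x =
          (S.F.symm (A.F.symm (S'.F.symm x)) - A.F.symm (S'.F.symm x)) +
            (A.F.symm (S'.F.symm x) - A.F.symm x) := by abel
      rw [k6]
      refine lt_of_le_of_lt (norm_add_le _ _) ?_
      linarith
  · intro x
    change S'.F (A.F (S.F x)) = _
    rw [hT1, hS]

end Pool.Agent.Helper18.GB
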